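import Pool.Agent.Helper6.V25Fin

/-!
# Vaught's conjecture for `Σ₂` sentences of the infinitary logic
-/

set_option autoImplicit false

namespace Pool.Agent.Results.MP_5df2c5_lc.SigmaTwoSentences

open Set Pool.Agent.Helper6

/-- **Vaught's conjecture (perfect set form) for all isomorphism-invariant countable unions of
local Borel classes (in particular for all `F_σ` classes), for universal theories and for `Σ₂`
sentences of `L_{ω₁,ω}` with arbitrary quantifier-free matrices, over arbitrary countable
relational languages.**  (Take `K = univ` and `T = ∅` for a `Σ₂` sentence `φ`; take for `φ` a true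
sentence to deal with `K` alone.) -/
theorem result (L : FirstOrder.Language.{0, 0}) (hc : Countable L.Symbols)
    (hrel : ∀ n, IsEmpty (L.Functions n))
    (K : Set (L.Structure ℕ))
    (hK : ∀ S S' : L.Structure ℕ, Nonempty (@FirstOrder.Language.Equiv L ℕ ℕ S S') →
      S ∈ K → S' ∈ K)
    (A : ℕ → Set (L.Structure ℕ)) (hA : ∀ n, IsLocal (A n)) (hAB : ∀ n, IsBorel (A n))
    (hKA : K = ⋃ n, A n)
    (T : L.Theory) (hT : T.IsUniversal) (φ : SigmaTwo L) :
    Dichotomy {S : L.Structure ℕ | S ∈ K ∧ @FirstOrder.Language.Theory.Model L ℕ S T ∧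
      φ.Holds S} :=
  VU.dichotomy_local hc hrel K hK A hA hAB hKA T hT φ

end Pool.Agent.Results.MP_5df2c5_lc.SigmaTwoSentences
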